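import Pool.Agent.H25.SecMom

set_option autoImplicit false

/-!
# The conjectured size of the sum of the squared gaps as a lower bound, for almost primes

Call an integer rough if it has no prime factor `p ≤ z`, and let `U` be the density of the rough integers; let `d n` be
the distance from `n` to the next rough integer. For every `ε`, `δ` there is a `K` such that for all large `z`:
in EVERY interval `(u, u + Y]` with `Y ≥ z ^ K` the sum of `(d n) ^ 2` over the rough `n` is at least `(2 - ε) Y / U`,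
and over the PRIMES `n` of every interval `(u, u + Y] ⊆ (δ X, X]` with `Y ≥ δ X`, `X ≥ z ^ K`, it is at least
`(2 - ε) / U ^ 2` times the number of these primes.
-/

namespace Pool.Agent.Results.MP_c702b2_nt.SquaredGapsBelow

open Finset
open Pool.Agent.H25.TwoPtE (Rough U U_up)
open Pool.Agent.H25.PairRg (Rgs)
open Pool.Agent.H25.PairCmp (Primes primes_eq)
open Pool.Agent.H25.PrimePtD (PrimesIn)
open Pool.Agent.H25.SecMom (IsNext main)

lemma tail (η lam : ℝ) (hη : 0 < η) (h : 4 / η ≤ lam) : Real.exp (-lam) * (1 + lam) ≤ η := by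
  have hl : 0 < lam := lt_of_lt_of_le (by positivity) h
  have h3 : lam / 2 + 1 ≤ Real.exp (lam / 2) := Real.add_one_le_exp _
  have h4 : Real.exp lam = Real.exp (lam / 2) * Real.exp (lam / 2) := by
    rw [← Real.exp_add]
    congr 1
    ring
  have h5 : (lam / 2 + 1) * (lam / 2 + 1) ≤ Real.exp lam := by
    rw [h4]
    exact mul_le_mul h3 h3 (by linarith) (Real.exp_pos _).le
  have h6 : 4 ≤ η * lam := by
    rw [div_le_iff₀ hη] at h
    linarith
  have h7 : 1 + lam ≤ η * Real.exp lam := by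
    have h8 : η * ((lam / 2 + 1) * (lam / 2 + 1)) ≤ η * Real.exp lam := by gcongr
    nlinarith
  have h9 : Real.exp (-lam) * Real.exp lam = 1 := by
    rw [← Real.exp_add]
    simp
  calc Real.exp (-lam) * (1 + lam) ≤ Real.exp (-lam) * (η * Real.exp lam) := by
        have := (Real.exp_pos (-lam)).le
        gcongr
    _ = η * (Real.exp (-lam) * Real.exp lam) := by ring
    _ = η := by rw [h9, mul_one]

/-- **The sum of the squares of the gaps of almost primes is at least of the conjectured size.** -/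
theorem result (ε δ : ℝ) (hε : 0 < ε) (hε1 : ε ≤ 1) (hδ : 0 < δ) (hδ1 : δ ≤ 1) :
    ∃ K z₀ : ℕ, 2 ≤ z₀ ∧
      (∀ L n z : ℕ, 2 ≤ z → n ≠ 0 → n ≤ z ^ L → Rough z n → n.primeFactorsList.length ≤ L) ∧
      ∀ z : ℕ, z₀ ≤ z → ∀ d : ℕ → ℕ, IsNext z d →
        (∀ u Y : ℕ, z ^ K ≤ Y → (2 - ε) * (Y / U z) ≤ ∑ n ∈ Rgs z u Y, (d n : ℝ) ^ 2) ∧
        (∀ X : ℕ, z ^ K ≤ X → ∀ u Y : ℕ, δ * X ≤ u → δ * X ≤ Y → u + Y ≤ X →
          0 < (Primes u Y).card ∧
          (2 - ε) * ((Primes u Y).card / U z ^ 2) ≤ ∑ n ∈ Primes u Y, (d n : ℝ) ^ 2) := by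
  classical
  obtain ⟨η, hη⟩ : ∃ η : ℝ, η = ε / 8 := ⟨_, rfl⟩
  have hη0 : 0 < η := by rw [hη]; positivity
  have hη1 : η ≤ 1 / 8 := by rw [hη]; linarith
  obtain ⟨x₀, hx₀⟩ : ∃ x₀ : ℝ, x₀ = 4 / η + 1 := ⟨_, rfl⟩
  have hx1 : 1 ≤ x₀ := by
    rw [hx₀]
    have : 0 < 4 / η := by positivity
    linarith
  have hηx : 0 < η / x₀ ^ 2 := by positivity
  have hηx1 : η / x₀ ^ 2 ≤ η := by
    rw [div_le_iff₀ (by positivity)]
    exact le_mul_of_one_le_right hη0.le (one_le_pow₀ hx1)
  obtain ⟨K1, z1, hK1, hz1, H1⟩ := Pool.Agent.H25.PairRg.after x₀ (η / x₀ ^ 2) (by linarith) hηx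
    (by linarith)
  obtain ⟨K2, z2, hK2, hz2, H2⟩ := Pool.Agent.H25.PrimePtD.after x₀ (η / x₀ ^ 2) δ (by linarith) hηx
    (by linarith) hδ hδ1
  obtain ⟨C, hC, hUup⟩ := U_up
  obtain ⟨z3, hz3⟩ := exists_nat_ge (Real.exp (C / η))
  obtain ⟨z4, hz4⟩ := exists_nat_ge (1 / δ)
  refine ⟨K1 + K2, z1 + z2 + z3 + z4, by omega, ?_, ?_⟩
  · intro L n z hz hn0 hn h
    exact Pool.Agent.H25.TwoPtE.few hz hn0 hn h
  intro z hz d hd
  have hzr : (0 : ℝ) < z := by exact_mod_cast (by omega : 0 < z)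
  obtain ⟨hU, H1⟩ := H1 z (by omega)
  have hlog : C / η ≤ Real.log z := by
    rw [Real.le_log_iff_exp_le hzr]
    exact hz3.trans (by exact_mod_cast (by omega : z3 ≤ z))
  have hlog0 : 0 < Real.log z := lt_of_lt_of_le (by positivity) hlog
  have hUη : U z ≤ η := by
    refine (hUup z (by omega)).trans ?_
    rw [div_le_iff₀ hlog0]
    rw [div_le_iff₀ hη0] at hlog
    linarith
  obtain ⟨T, hT⟩ : ∃ T : ℕ, T = ⌊x₀ / U z⌋₊ := ⟨_, rfl⟩
  have hT1 : (T : ℝ) * U z ≤ x₀ := by
    have := Nat.floor_le (show 0 ≤ x₀ / U z by positivity)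
    rw [← hT, le_div_iff₀ hU] at this
    exact this
  have hT2 : 4 / η ≤ (T : ℝ) * U z := by
    have := Nat.lt_floor_add_one (x₀ / U z)
    rw [← hT, div_lt_iff₀ hU] at this
    rw [hx₀] at this
    linarith
  have hexp := tail η _ hη0 hT2
  have hwin : ∀ t < T, (((t + 1 : ℕ) : ℝ) - 1) * U z ≤ x₀ ∧ (((t + 1 : ℕ) : ℝ) - 1) * U z = t * U z := by
    intro t ht
    have e : (((t + 1 : ℕ) : ℝ) - 1) * U z = t * U z := by push_cast; ring
    refine ⟨?_, e⟩
    rw [e]
    have h1 : (t : ℝ) ≤ T := by exact_mod_cast ht.le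
    calc (t : ℝ) * U z ≤ T * U z := by gcongr
      _ ≤ x₀ := hT1
  refine ⟨?_, ?_⟩
  · intro u Y hY
    have hY1 : z ^ K1 ≤ Y := (Nat.pow_le_pow_right (by omega) (by omega)).trans hY
    have h := main (Rgs z u Y) z T d hd (Y * U z) (U z) η x₀ (by positivity) hU hUη hη0 hx1 hT1 hexp (by
      intro t ht
      obtain ⟨h1, h2⟩ := hwin t ht
      have h3 := H1 (t + 1) (by omega) h1 u Y hY1 {0}
      rw [Finset.sum_singleton, h2] at h3
      simp only [mem_singleton, pow_zero, Nat.factorial_zero, Nat.cast_one, div_one, mul_one] at h3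
      have h4 := (abs_le.1 h3).1
      linarith)
    refine le_trans ?_ h
    have e : (Y : ℝ) * U z * (2 - 4 * η) / U z ^ 2 = (2 - 4 * η) * (Y / U z) := by
      field_simp
    rw [e]
    have h5 : 0 ≤ (Y : ℝ) / U z := by positivity
    apply mul_le_mul_of_nonneg_right _ h5
    rw [hη]
    linarith
  · intro X hX u Y hu hY huY
    have hXk : ∀ k ≤ K1 + K2, z ^ k ≤ X := fun k hk => (Nat.pow_le_pow_right (by omega) hk).trans hX
    have hzu : z ≤ u := by
      have h1 : ((z ^ 2 : ℕ) : ℝ) ≤ X := by exact_mod_cast hXk 2 (by omega)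
      push_cast at h1
      have h2 : 1 / δ ≤ z := hz4.trans (by exact_mod_cast (by omega : z4 ≤ z))
      rw [div_le_iff₀ hδ] at h2
      have h3 : (z : ℝ) ≤ u := by
        calc (z : ℝ) = z * 1 := (mul_one _).symm
          _ ≤ z * (z * δ) := by gcongr
          _ = δ * (z : ℝ) ^ 2 := by ring
          _ ≤ δ * X := by gcongr
          _ ≤ u := hu
      exact_mod_cast h3
    have hzX : z ≤ X := by simpa using hXk 1 (by omega)
    have hX0 : (0 : ℝ) < X := by exact_mod_cast (by omega : 0 < X)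
    have hlX : 0 < Real.log X := Real.log_pos (by exact_mod_cast (by omega : 1 < X))
    have hY0 : (0 : ℝ) < Y := lt_of_lt_of_le (by positivity) hY
    obtain ⟨_, H2⟩ := H2 z (by omega) X (hXk _ (by omega))
    have hM : 0 < (Y : ℝ) / Real.log X := by positivity
    have h := main (Primes u Y) z T d hd (Y / Real.log X) (U z) η x₀ hM.le hU hUη hη0 hx1 hT1 hexp (by
      intro t ht
      obtain ⟨h1, h2⟩ := hwin t ht
      have h3 := H2 (t + 1) (by omega) h1 u Y hu hY huY {0}
      rw [Finset.sum_singleton, h2, primes_eq z u Y hzu] at h3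
      simp only [mem_singleton, pow_zero, Nat.factorial_zero, Nat.cast_one, div_one, mul_one] at h3
      have h4 := (abs_le.1 h3).1
      linarith)
    have hP : |((Primes u Y).card : ℝ) - Y / Real.log X| ≤ η / x₀ ^ 2 * (Y / Real.log X) := by
      have h3 := H2 1 le_rfl (by simp; linarith) u Y hu hY huY {0}
      have e : (PrimesIn z u Y).filter
          (fun n => Pool.Agent.H25.TwoPtE.Btw z 1 n ∈ ({0} : Finset ℕ)) = Primes u Y := by
        rw [← primes_eq z u Y hzu]
        apply filter_true_of_mem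
        intro n _
        rw [mem_singleton]
        unfold Pool.Agent.H25.TwoPtE.Btw
        rw [card_eq_zero, filter_eq_empty_iff]
        intro m hm
        rw [mem_Ioo] at hm
        omega
      rw [e, Finset.sum_singleton] at h3
      simpa using h3
    have hP1 := abs_le.1 hP
    have hP2 : η / x₀ ^ 2 * (Y / Real.log X) ≤ η * (Y / Real.log X) := by gcongr
    refine ⟨?_, ?_⟩
    · have h6 : (0 : ℝ) < (Primes u Y).card := by nlinarith [hP1.1]
      exact_mod_cast h6
    · refine le_trans ?_ h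
      rw [← mul_div_assoc]
      apply div_le_div_of_nonneg_right _ (by positivity)
      have h7 : ((Primes u Y).card : ℝ) ≤ (1 + η) * (Y / Real.log X) := by nlinarith [hP1.2]
      have h8 : 2 - ε = 2 - 8 * η := by rw [hη]; ring
      rw [h8]
      calc (2 - 8 * η) * ((Primes u Y).card : ℝ) ≤ (2 - 8 * η) * ((1 + η) * (Y / Real.log X)) := by
            apply mul_le_mul_of_nonneg_left h7
            linarith
        _ = ((2 - 8 * η) * (1 + η)) * (Y / Real.log X) := by ring
        _ ≤ (2 - 4 * η) * (Y / Real.log X) := by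
            apply mul_le_mul_of_nonneg_right _ hM.le
            nlinarith
        _ = Y / Real.log X * (2 - 4 * η) := by ring

end Pool.Agent.Results.MP_c702b2_nt.SquaredGapsBelow
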